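import Pool.Agent.H252.VR.Main

/-!
# Trace preserving actions with the weak tracial Rokhlin property and positive radius of comparison

For every finite group `G` there is a simple separable unital stably finite C*-algebra `A` with
a tracial state and radius of comparison at least one, and an action of `G` on `A` with the weak
tracial Rokhlin property for which every tracial state is invariant.
-/

set_option autoImplicit false

namespace Pool.Agent.Results.MP_81d4f5_an.TracePreservingWTR

open Pool.Agent.H252.VR.Defs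

noncomputable section

/-- Mutually orthogonal positive contractions indexed by `G`. -/
def OrthContr {G : Type} {A : Type} [CStarAlgebra A] (f : G → A) : Prop :=
  (∀ g, (∃ y, f g = star y * y) ∧ ‖f g‖ ≤ 1) ∧ ∀ g h, g ≠ h → f g * f h = 0

/-- The elements `f g` are moved by `α` as the group elements, up to `ε`. -/
def Moved {G : Type} [Group G] {A : Type} [CStarAlgebra A] (α : G →* (A ≃⋆ₐ[ℂ] A)) (f : G → A)
    (ε : ℝ) : Prop :=
  ∀ g h, ‖α g (f h) - f (g * h)‖ < ε

/-- The elements `f g` commute with the elements of `F`, up to `ε`. -/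
def AlmostCentral {G : Type} {A : Type} [CStarAlgebra A] (F : Finset A) (f : G → A) (ε : ℝ) :
    Prop :=
  ∀ g, ∀ a ∈ F, ‖f g * a - a * f g‖ < ε

/-- Cuntz subequivalence of elements of `A`: `a` is a limit of elements `v b v*`. -/
def SubEquiv {A : Type} [CStarAlgebra A] (a b : A) : Prop :=
  ∀ δ : ℝ, 0 < δ → ∃ v : A, ‖v * b * star v - a‖ < δ

/-- The weak tracial Rokhlin property of an action of a finite group: for every finite set `F`,
every `ε > 0` and every positive `x` of norm one there are mutually orthogonal positive contractions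
`f g`, with sum `s`, such that `α g (f h)` is `ε`-close to `f (g h)`, the `f g` `ε`-commute with the
elements of `F`, `1 - s` is Cuntz subequivalent to `x` and `‖s x s‖ > 1 - ε`. -/
def WeakTracialRokhlin {G : Type} [Group G] [Fintype G] {A : Type} [CStarAlgebra A]
    (α : G →* (A ≃⋆ₐ[ℂ] A)) : Prop :=
  ∀ (F : Finset A) (ε : ℝ), 0 < ε → ∀ x : A, (∃ y, x = star y * y) → ‖x‖ = 1 →
    ∃ (f : G → A) (s : A), s = ∑ g, f g ∧ OrthContr f ∧ Moved α f ε ∧ AlmostCentral F f ε ∧
      SubEquiv (1 - s) x ∧ 1 - ε < ‖s * x * s‖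

/-- the Rokhlin property implies the weak tracial Rokhlin property -/
lemma of_rokhlin {G : Type} [Group G] [Fintype G] {A : Type} [CStarAlgebra A]
    {α : G →* (A ≃⋆ₐ[ℂ] A)} (h : Rokhlin α) : WeakTracialRokhlin α := by
  intro F ε hε x _ hx1
  obtain ⟨e, h1, h2, h3, h4, h5⟩ := h F ε hε
  have hst : ∀ g, star (e g) * e g = e g := fun g => by
    rw [(h1 g).isSelfAdjoint.star_eq, (h1 g).isIdempotentElem.eq]
  refine ⟨e, 1, h3.symm, ⟨fun g => ⟨⟨e g, (hst g).symm⟩, ?_⟩, h2⟩, h4, h5, fun δ hδ => ⟨0, ?_⟩, ?_⟩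
  · have h6 : ‖e g‖ * ‖e g‖ = ‖e g‖ := by
      rw [← CStarRing.norm_star_mul_self, hst]
    nlinarith [norm_nonneg (e g)]
  · rw [zero_mul, zero_mul, sub_self, sub_zero, norm_zero]
    exact hδ
  · rw [one_mul, mul_one, hx1]
    linarith

/-- Every tracial state is invariant under the action. -/
def TracesInvariant {G : Type} [Group G] {A : Type} [CStarAlgebra A]
    (α : G →* (A ≃⋆ₐ[ℂ] A)) : Prop :=
  ∀ τ : A →ₗ[ℂ] ℂ, IsTracialState τ → ∀ (g : G) (x : A), τ (α g x) = τ x

theorem result (G : Type) [Group G] [Fintype G] :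
    ∃ (A : Type) (_ : CStarAlgebra A), TopologicalSpace.SeparableSpace A ∧ IsSimpleRing A ∧
      StablyFinite A ∧ (∃ τ : A →ₗ[ℂ] ℂ, IsTracialState τ) ∧ 1 ≤ rc A ∧
      ∃ α : G →* (A ≃⋆ₐ[ℂ] A), WeakTracialRokhlin α ∧ TracesInvariant α := by
  obtain ⟨A, i, h1, h2, h3, h4, h5, α, h6⟩ := Pool.Agent.H252.VR.main G
  exact ⟨A, i, h1, h2, h3, h4.exists, h5, α, of_rokhlin h6, fun τ hτ g x =>
    Pool.Agent.H252.VR.unique_invariant h4 hτ (α g) x⟩

end

end Pool.Agent.Results.MP_81d4f5_an.TracePreservingWTR
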